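import Pool.Agent.R887.TrvN

/-!
Nef classes in towers of finite multi-valued maps.
-/

set_option autoImplicit false

open FF Pool.Agent.W602.GT Pool.Agent.Y172 Pool.Agent.R887

/-- Let `X 0, X 1, X 2, ...` be normal complex projective varieties of dimension `n ≥ 1` with generic
points `y k` (for instance `X 0` may be a Calabi-Yau manifold), and `D k` an `ℝ`-divisor on `X k` (a
function on the prime divisors of `X k`), for instance one in a nef class. Let
`X (k + 1) ← X'' k → X k` be multi-valued maps, given by homomorphisms `ψ k`, `φ k` of the function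
fields, with generically finite projections `p k` to `X (k + 1)` and dominant `f k : X'' k ⇢ X k`,
such that all prime divisors over `X'' k` which lie over prime divisors of `X k` by `f k` lie over
prime divisors of `X (k + 1)` by `p k` (for instance, if `p k` and `f k` are finite morphisms), and
`t k` times `f^* D k` is at most `t k` times `p^* D (k + 1)` plus the divisor of a rational function
`δ k ≠ 0` on `X'' k` along these prime divisors, `t k ≥ 1`. Suppose that the intersection number of
`n - 1` pull backs of hyperplane sections of `X k` and one pull back of a hyperplane section of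
`X (k + 1)` is at most `c k deg (f k)`.

(1) If `τ ≥ 0` and `τ H - D s` is pseudo-effective on `X s`, then `c 0 ⋯ c (s - 1) τ H - D 0` is
pseudo-effective on `X 0`, where `H` are the hyperplane sections.

(2) Let `τ s H - D s` be pseudo-effective on `X s` for all `s`, where `τ s ≥ 0`, and suppose that
`c 0 ⋯ c (s - 1) τ s` tends to `0` for `s → ∞` (for instance the `(X k, D k)` may be from a finite set
of pairs, so that the numbers `τ k` can be chosen to be bounded, and the products of the `c k` tend to
`0`). Then all `- D k` are pseudo-effective. If `D k` is pseudo-effective (for instance nef), then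
`D k` is numerically trivial, so its class is the pull back of the (ample) class `0` of a point, and
`t k f^* D k = t k p^* D (k + 1) + div (δ k)` along the prime divisors above. -/
theorem Pool.Agent.Results.MP_cfacaa_ag.DivisorTowers.result
    {n : ℕ} (hn0 : 0 < n) {K L : ℕ → Type} [∀ k, Field (K k)] [∀ k, Algebra ℂ (K k)]
    [∀ k, Field (L k)] [∀ k, Algebra ℂ (L k)] {N : ℕ → ℕ} {y : ∀ k, Fin (N k + 1) → K k}
    (hy : ∀ k, NormalModel (y k)) (hn : ∀ k, Algebra.trdeg ℂ (K k) = n)
    {D : ∀ k, Place ℂ (K k) → ℝ} (φ : ∀ k, K k →ₐ[ℂ] L k) (ψ : ∀ k, K (k + 1) →ₐ[ℂ] L k)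
    (hψ : ∀ k, FiniteDimensional (ψ k).fieldRange (L k)) {t : ℕ → ℕ} {δ : ∀ k, L k}
    (hpull : ∀ k, FinitePullBackLe (φ k) (ψ k) (y k) (D k) (y (k + 1)) (D (k + 1)) (t k) (δ k))
    {c : ℕ → ℝ} (hc0 : ∀ k, 0 < c k)
    (hc : ∀ k, MultiDegreeLe (φ k) (ψ k) (y k) (y (k + 1)) (n - 1) 1 (c k)) :
    (∀ (s : ℕ) (τ : ℝ), 0 ≤ τ → DivThresholdLe (y s) (D s) τ →
      DivThresholdLe (y 0) (D 0) ((∏ l ∈ Finset.range s, c l) * τ)) ∧
    ∀ τ : ℕ → ℝ, (∀ k, 0 ≤ τ k) → (∀ k, DivThresholdLe (y k) (D k) (τ k)) →
      Filter.Tendsto (fun s => (∏ l ∈ Finset.range s, c l) * τ s) Filter.atTop (nhds 0) →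
      ∀ k, DivThresholdLe (y k) (D k) 0 ∧ (DivPsef (y k) (D k) → DivNumTrivial (y k) (D k) ∧
        PullBackEq (φ k) (ψ k) (y k) (D k) (D (k + 1)) (t k) (δ k)) := by
  refine ⟨fun s τ hτ0 hτ => ?_, fun τ hτ0 hτ hlim =>
    div_tower_main hy hn hn0 φ ψ hψ hpull hc0 hc hτ0 hτ hlim⟩
  have h1 := (div_tower hy hn hn0 φ ψ hψ hpull hc s 0 (τ := τ) hτ0
    (by rw [Nat.zero_add]; exact hτ)).2
  simpa using h1
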