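import Pool.Agent.R887.TrvY

/-!
Nef eigendivisors of finite multi-valued maps.
-/

set_option autoImplicit false

open FF Pool.Agent.W602.GT Pool.Agent.Y172 Pool.Agent.R887

/-- Let `X` be a normal complex projective variety of dimension `n ≥ 1`, with generic point `y`, for
instance a Calabi-Yau manifold, `D` an `ℝ`-divisor on `X`, and `X ← X'' → X` a multi-valued map,
where the projection `p` to the first copy of `X` is generically finite and `f : X'' ⇢ X` is
dominant (for instance, two finite morphisms), such that the prime divisors over `X''` which `f` maps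
to prime divisors of `X` are mapped to prime divisors of `X` by `p`. Let `a, b ≥ 1` be natural
numbers such that, along these prime divisors, `b f^* D` is at most `a p^* D` up to `ℚ`-linear
equivalence, that is `s b f^* D ≤ s a p^* D + div δ` for some `s ≥ 1` and `δ ≠ 0`. Suppose that the
intersection number of `n - 1` pull backs by `f` of hyperplane sections of `X` and one pull back by
`p` of a hyperplane section of `X` is at most `c deg f`, where `c a < b`.

Then `-D` is pseudo-effective. If `D` is pseudo-effective, for instance nef, then it is numerically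
trivial, that is, it is the pull back of an ample class from a point, and
`s b f^* D = s a p^* D + div δ` along the prime divisors above.

Thus, if `D` is nef and not numerically trivial and `f^* D ~_ℚ λ p^* D` with `λ = a / b`, then
`λ ≥ deg f / ((f^* H)^(n-1) · p^* H)`. -/
theorem Pool.Agent.Results.MP_cfacaa_ag.EigenDivisors.result
    {K L : Type} [Field K] [Algebra ℂ K] [Field L] [Algebra ℂ L] {N n : ℕ}
    {y : Fin (N + 1) → K} (hy : NormalModel y) (hn : Algebra.trdeg ℂ K = n) (hn0 : 0 < n)
    {D : Place ℂ K → ℝ} (hD : {P | IsPrimeDivisor y P ∧ D P ≠ 0}.Finite) (φ ψ : K →ₐ[ℂ] L)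
    (hψ : FiniteDimensional ψ.fieldRange L) {a b s : ℕ} {δ : L} (ha : 1 ≤ a) (hb : 1 ≤ b)
    (hpull : FinitePullBackLe φ ψ y (fun P => b * D P) y (fun P => a * D P) s δ) {c : ℝ}
    (hc : MultiDegreeLe φ ψ y y (n - 1) 1 c) (hcab : c * a < b) :
    DivPsef y (fun P => -D P) ∧ (DivPsef y D → DivNumTrivial y D ∧
      PullBackEq φ ψ y (fun P => b * D P) (fun P => a * D P) s δ) := by
  obtain ⟨h1, h2⟩ := div_self hy hn hn0 hD φ ψ hψ ha hb hpull hc hcab
  refine ⟨?_, h2⟩
  unfold DivPsef
  simp only [neg_neg]
  exact h1
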