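import Pool.Agent.R893.TQ.Cls

set_option autoImplicit false

/-!
# Strong abundance for nef classes on quotients of complex tori

Let `X = V / Γ` be the quotient of a complex torus of any dimension by any finite group. If the group
acts freely and `X` is projective, then `X` is a Calabi-Yau manifold in the sense of the problem: the
abelian varieties and all their finite etale quotients (hyperelliptic manifolds) arise in this way.
The theorem is the strong abundance conjecture for these `X`, for all nef rational `(1,1)`-classes,
of any numerical dimension, together with the uniqueness of the fibration; for it the action need not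
be free and `X` need not be projective.

Everything is written on the universal cover `V`. `latt`, `IsTorusQuotient` and `LineBundle` are
defined in `Pool.Agent.W594.SYZ.Defs2`; `IsHermitian`, `IsChernForm`, `IsNefForm` and
`IsPositiveForm` in `Pool.Agent.W594.SYZ.TQDefs`; `IsFibration` in `Pool.Agent.TH735.AQ.Defs`;
`BaseFree` in `Pool.Agent.R893.TQ.Semi`; `IsRatClass`, `IsAmpleClass`, `Solves`, `Solution`,
`Isomorphic` and `shift` in `Pool.Agent.R893.TQ.Cls`.

The proof: by the existence theorem for theta functions a multiple of `H` is the Chern form of a
line bundle; the kernel `K` of `H` is spanned by the lattice vectors which it contains, since the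
image of the lattice in `V / K` is discrete; the group `Δ` of the transformations of `W = V / K`
induced by `Γ` is again the group of a torus quotient, and `H` descends to a positive rational class
on `W / Δ`, which has a multiple generated by theta functions.
-/

namespace Pool.Agent.Results.MP_cfacaa_ag.TorusQuotients

open Pool.Agent.W594.SYZ2 Pool.Agent.R893.TQ

/-- Let `X = V / Γ` be a quotient of a complex torus by a finite group, and `H` a class in
`H²(X, ℚ)` of type `(1,1)`. Then `H` is nef if and only if there are a fibration
`g : X → B = W / Δ` onto a torus quotient, given by a linear map `π` from `V` onto `W = ℂ^n`, and an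
ample class `HB` on `B` with `H = g^* HB`. Any two such fibrations with ample classes are isomorphic.
Moreover, if there is an ample class `A` on `X`, then `H` is nef if and only if all classes
`H + (1 / k) A`, `k ≥ 1`, are ample. -/
theorem result {V : Type*} [NormedAddCommGroup V] [NormedSpace ℂ V] [FiniteDimensional ℂ V]
    (Γ : Subgroup (V ≃ᵃ[ℂ] V)) (hΓ : IsTorusQuotient Γ) (H : V → V → ℂ) (hr : IsRatClass Γ H) :
    (IsNefForm H ↔ Nonempty (Solution Γ H)) ∧
    (∀ S S' : Solution Γ H, Isomorphic S.Δ S'.Δ S.π S'.π S.HB S'.HB) ∧
    (∀ A : V → V → ℂ, IsAmpleClass Γ A →
      (IsNefForm H ↔ ∀ k : ℕ, 1 ≤ k → IsAmpleClass Γ (shift H A k))) := by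
  refine ⟨⟨fun hn => ?_, ?_⟩, fun S S' => S.solves.unique S'.solves, fun A ha => nef_iff hΓ hr ha⟩
  · obtain ⟨n, Δ, π, HB, S⟩ := exists_solution hΓ hr hn
    exact ⟨⟨n, Δ, π, HB, S⟩⟩
  · rintro ⟨S⟩
    exact S.solves.nef

end Pool.Agent.Results.MP_cfacaa_ag.TorusQuotients
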